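import Pool.Agent.Helper26.KN.Goals

/-! `phi q w (N+3) k` for `k = 1, 2, 3` in terms of `al`, `be`, `ga`. -/

namespace KN.PkB123

open Finset PowerSeries Pool.Agent.Helper97.RCK KN

theorem const_Fs (lam : ℝ) : constantCoeff (Fs lam) = 1 := by
  rw [← coeff_zero_eq_constantCoeff_apply, Fs, coeff_mk]
  simp

theorem Fs_mul_inv (lam : ℝ) : Fs lam * (Fs lam)⁻¹ = 1 := by
  apply PowerSeries.mul_inv_cancel
  rw [const_Fs]
  exact one_ne_zero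

theorem dF (lam : ℝ) : d⁄dX ℝ (Fs lam) = Hs lam * Fs lam := by
  have h := Fs_mul_inv lam
  rw [Hs, mul_assoc, mul_comm (Fs lam)⁻¹, h, mul_one]

theorem d2F (lam : ℝ) : d⁄dX ℝ (d⁄dX ℝ (Fs lam)) =
    (d⁄dX ℝ (Hs lam) + Hs lam ^ 2) * Fs lam := by
  rw [dF, Derivation.leibniz, dF, smul_eq_mul, smul_eq_mul]
  ring

theorem d3F (lam : ℝ) : d⁄dX ℝ (d⁄dX ℝ (d⁄dX ℝ (Fs lam))) =
    (d⁄dX ℝ (d⁄dX ℝ (Hs lam)) + 3 * (Hs lam * d⁄dX ℝ (Hs lam)) + Hs lam ^ 3) * Fs lam := by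
  rw [d2F, Derivation.leibniz, dF, map_add, smul_eq_mul, smul_eq_mul, pow_two, Derivation.leibniz,
    smul_eq_mul]
  ring

theorem coeff_d (f : PowerSeries ℝ) (n : ℕ) :
    ((n : ℝ) + 1) * coeff (n + 1) f = coeff n (d⁄dX ℝ f) := by
  rw [coeff_derivative]
  ring

theorem b123 : G_FD → G_PHI → G_B123 := by
  intro hFD hPHI q w Z hw hZ N
  have hFi := Fs_mul_inv (1 + w)
  set H := Hs (1 + w) with hH
  have hH1 : d⁄dX ℝ H = H * (up (1 + w) H - H) := (hFD (1 + w)).2.2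
  have hZ1 : d⁄dX ℝ Z = C q * (H * Z) := hZ.2
  have hbe : be (1 + w) H Z N = coeff N (H * d⁄dX ℝ H * Z) := by
    rw [be, hH1]
    congr 1
    ring
  have hcq : ∀ f : PowerSeries ℝ, coeff N (C q * f) = q * coeff N f := by
    intro f
    rw [coeff_C_mul]
  have hc3 : ∀ f : PowerSeries ℝ, coeff N (3 * f) = 3 * coeff N f := by
    intro f
    have : (3 : PowerSeries ℝ) * f = f + f + f := by ring
    rw [this, map_add, map_add]
    ring
  have hc2 : ∀ f : PowerSeries ℝ, coeff N (2 * f) = 2 * coeff N f := by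
    intro f
    have : (2 : PowerSeries ℝ) * f = f + f := by ring
    rw [this, map_add]
    ring
  refine ⟨?_, ?_, ?_⟩
  · have h := hPHI q w Z hw hZ (N + 3) 3 (by omega)
    rw [h]
    have e : N + 3 - 3 = N := by omega
    rw [e]
    congr 1
    have e2 : ((⇑(d⁄dX ℝ))^[3] (Fs (1 + w))) * (Fs (1 + w))⁻¹ * Z =
        d⁄dX ℝ (d⁄dX ℝ H) * Z + 3 * (H * d⁄dX ℝ H * Z) + H ^ 3 * Z := by
      have e3 : ((⇑(d⁄dX ℝ))^[3] (Fs (1 + w))) = d⁄dX ℝ (d⁄dX ℝ (d⁄dX ℝ (Fs (1 + w)))) := rfl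
      rw [e3, d3F, mul_assoc _ (Fs (1 + w)), hFi]
      ring
    rw [e2, map_add, map_add, hc3, hbe, al, ga]
  · have h := hPHI q w Z hw hZ (N + 3) 2 (by omega)
    rw [h]
    have e : N + 3 - 2 = N + 1 := by omega
    rw [e]
    have e2 : ((⇑(d⁄dX ℝ))^[2] (Fs (1 + w))) * (Fs (1 + w))⁻¹ * Z =
        (d⁄dX ℝ H + H ^ 2) * Z := by
      have e3 : ((⇑(d⁄dX ℝ))^[2] (Fs (1 + w))) = d⁄dX ℝ (d⁄dX ℝ (Fs (1 + w))) := rfl
      rw [e3, d2F, mul_assoc _ (Fs (1 + w)), hFi]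
      ring
    rw [e2]
    have e4 : (((N + 1).factorial : ℕ) : ℝ) = (N.factorial : ℝ) * ((N : ℝ) + 1) := by
      rw [Nat.factorial_succ]
      push_cast
      ring
    rw [e4, mul_assoc, coeff_d]
    congr 1
    have e5 : d⁄dX ℝ ((d⁄dX ℝ H + H ^ 2) * Z) =
        d⁄dX ℝ (d⁄dX ℝ H) * Z + (2 * (H * d⁄dX ℝ H * Z) + C q * (H * d⁄dX ℝ H * Z)) +
          C q * (H ^ 3 * Z) := by
      rw [Derivation.leibniz, hZ1, map_add, smul_eq_mul, smul_eq_mul, pow_two, Derivation.leibniz,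
        smul_eq_mul]
      ring
    rw [e5, map_add, map_add, map_add, hc2, hcq, hcq, hbe, al, ga]
    ring
  · have h := hPHI q w Z hw hZ (N + 3) 1 (by omega)
    rw [h]
    have e : N + 3 - 1 = N + 1 + 1 := by omega
    rw [e]
    have e2 : ((⇑(d⁄dX ℝ))^[1] (Fs (1 + w))) * (Fs (1 + w))⁻¹ * Z = H * Z := by
      have e3 : ((⇑(d⁄dX ℝ))^[1] (Fs (1 + w))) = d⁄dX ℝ (Fs (1 + w)) := rfl
      rw [e3, dF, mul_assoc _ (Fs (1 + w)), hFi, mul_one]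
    rw [e2]
    have e4 : (((N + 1 + 1).factorial : ℕ) : ℝ) =
        (N.factorial : ℝ) * (((N : ℝ) + 1) * (((N + 1 : ℕ) : ℝ) + 1)) := by
      rw [Nat.factorial_succ, Nat.factorial_succ]
      push_cast
      ring
    rw [e4, mul_assoc, mul_assoc, coeff_d, coeff_d]
    congr 1
    have e6 : d⁄dX ℝ (H * Z) = d⁄dX ℝ H * Z + C q * (H * H * Z) := by
      rw [Derivation.leibniz, hZ1, smul_eq_mul, smul_eq_mul]
      ring
    have e7 : d⁄dX ℝ (C q : PowerSeries ℝ) = 0 := derivative_C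
    have e5 : d⁄dX ℝ (d⁄dX ℝ (H * Z)) =
        d⁄dX ℝ (d⁄dX ℝ H) * Z + 3 * (C q * (H * d⁄dX ℝ H * Z)) + C q * (C q * (H ^ 3 * Z)) := by
      rw [e6, map_add, Derivation.leibniz, Derivation.leibniz, e7, Derivation.leibniz,
        Derivation.leibniz, hZ1]
      simp only [smul_eq_mul]
      ring
    rw [e5, map_add, map_add, hc3, hcq, hcq, hcq, hbe, al, ga]
    ring

end KN.PkB123
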